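import Mathlib

/-!
# Every tropical polynomial is a tropical quotient of two products of units
-/

open Finset

namespace Pool.Agent.Results.MP_b8ee47_co.RationalFactorization

variable {n : ℕ}

/-- the max-plus expression `x ↦ max_{a ∈ A} (c a + a · x)` with exponents `a ∈ ℕ^n` -/
noncomputable def trop (A : Finset (Fin n → ℕ)) (hA : A.Nonempty) (c : (Fin n → ℕ) → ℝ) :
    (Fin n → ℝ) → ℝ :=
  fun x => A.sup' hA fun a => c a + ∑ i, (a i : ℝ) * x i

/-- tropical polynomial functions in `n` variables -/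
def IsTropicalPolynomial (f : (Fin n → ℝ) → ℝ) : Prop :=
  ∃ (A : Finset (Fin n → ℕ)) (hA : A.Nonempty) (c : (Fin n → ℕ) → ℝ), f = trop A hA c

/-- the Newton polytope of an expression with exponent set `A` -/
def newt (A : Finset (Fin n → ℕ)) : Set (Fin n → ℝ) :=
  convexHull ℝ ((fun (a : Fin n → ℕ) (i : Fin n) => (a i : ℝ)) '' (A : Set (Fin n → ℕ)))

/-- `f` is a unit: it is a tropical polynomial, and its Legendre transform
`y ↦ sup_x (y · x - f x)` is one affine function `y ↦ s · y + t` on the whole Newton polytope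
(so that the regular subdivision of the Newton polytope is trivial) -/
def IsTropicalUnit (f : (Fin n → ℝ) → ℝ) : Prop :=
  ∃ (A : Finset (Fin n → ℕ)) (hA : A.Nonempty) (c : (Fin n → ℕ) → ℝ), f = trop A hA c ∧
    ∃ (s : Fin n → ℝ) (t : ℝ), ∀ y ∈ newt A,
      IsLUB (Set.range fun x : Fin n → ℝ => ∑ i, y i * x i - f x) (∑ i, s i * y i + t)

/-- finite tropical products (that is, pointwise sums) of units -/
def IsProductOfUnits (g : (Fin n → ℝ) → ℝ) : Prop :=
  ∃ l : List ((Fin n → ℝ) → ℝ), (∀ u ∈ l, IsTropicalUnit u) ∧ g = l.sum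

/-- `f` is rationally factorizable: `f ⊙ g = h` for two finite tropical products of units -/
def RationallyFactorizable (f : (Fin n → ℝ) → ℝ) : Prop :=
  ∃ g h : (Fin n → ℝ) → ℝ, IsProductOfUnits g ∧ IsProductOfUnits h ∧ f + g = h

/-- maximum of finitely many reals, with value `0` for the empty family -/
noncomputable def mx {ι : Type*} (S : Finset ι) (t : ι → ℝ) : ℝ :=
  if h : S.Nonempty then S.sup' h t else 0

lemma mx_insert {ι : Type*} [DecidableEq ι] (T : Finset ι) (t : ι → ℝ) (j b : ι) (hb : b ∈ T)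
    (h : t j ≤ t b) : mx (insert j T) t = mx T t := by
  have hT : T.Nonempty := ⟨b, hb⟩
  rw [mx, mx, dif_pos hT, dif_pos (insert_nonempty j T), sup'_insert (H := hT)]
  exact sup_eq_right.2 (h.trans (le_sup' t hb))

lemma cancel {ι : Type*} [DecidableEq ι] (S Z : Finset ι) (t : ι → ℝ) (hZ : Z ⊆ S)
    (b : ι) (hb : b ∈ S) (hbZ : b ∉ Z) (j : ι) (hj : j ∈ Z) (h : t j ≤ t b) :
    ∑ J ∈ Z.powerset, (-1 : ℝ) ^ J.card * mx (S \ J) t = 0 := by
  have hZ' : Z = insert j (Z.erase j) := (insert_erase hj).symm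
  rw [hZ', sum_powerset_insert (notMem_erase j Z), ← sum_add_distrib]
  refine sum_eq_zero fun J hJ => ?_
  rw [mem_powerset] at hJ
  have hjJ : j ∉ J := fun h => notMem_erase j Z (hJ h)
  have hbJ : b ∉ insert j J := by
    intro h1
    rcases mem_insert.1 h1 with rfl | h2
    · exact hbZ hj
    · exact hbZ (mem_of_mem_erase (hJ h2))
  have hS : S \ J = insert j (S \ insert j J) := by
    ext a
    simp only [mem_sdiff, mem_insert]
    constructor
    · rintro ⟨h1, h2⟩
      by_cases h3 : a = j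
      · exact Or.inl h3
      · exact Or.inr ⟨h1, fun h4 => h4.elim h3 h2⟩
    · rintro (rfl | ⟨h1, h2⟩)
      · exact ⟨hZ hj, hjJ⟩
      · exact ⟨h1, fun h3 => h2 (Or.inr h3)⟩
  rw [hS, mx_insert _ t j b (mem_sdiff.2 ⟨hb, hbJ⟩) h, card_insert_of_notMem hjJ, pow_succ]
  ring

/-- if the coefficients are affine in the exponents, the expression is a unit -/
lemma unit_of_affine (A : Finset (Fin n → ℕ)) (hA : A.Nonempty) (c : (Fin n → ℕ) → ℝ)
    (s : Fin n → ℝ) (t : ℝ) (h : ∀ a ∈ A, c a = t + ∑ i, s i * (a i : ℝ)) :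
    IsTropicalUnit (trop A hA c) := by
  refine ⟨A, hA, c, rfl, -s, -t, ?_⟩
  intro y hy
  have key : ∀ x : Fin n → ℝ, ∑ i, y i * x i - trop A hA c x ≤ ∑ i, (-s) i * y i + -t := by
    intro x
    have hconv : Convex ℝ {z : Fin n → ℝ | t + ∑ i, (s i + x i) * z i ≤ trop A hA c x} := by
      intro z hz w hw p q hp hq hpq
      simp only [Set.mem_ofPred_eq, Pi.add_apply, Pi.smul_apply, smul_eq_mul] at *
      have e : t + ∑ i, (s i + x i) * (p * z i + q * w i) =
          p * (t + ∑ i, (s i + x i) * z i) + q * (t + ∑ i, (s i + x i) * w i) := by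
        have : ∑ i, (s i + x i) * (p * z i + q * w i) =
            p * (∑ i, (s i + x i) * z i) + q * (∑ i, (s i + x i) * w i) := by
          rw [mul_sum, mul_sum, ← sum_add_distrib]
          exact sum_congr rfl fun i _ => by ring
        rw [this]
        have : t = p * t + q * t := by rw [← add_mul, hpq, one_mul]
        linear_combination this
      rw [e]
      calc _ ≤ p * trop A hA c x + q * trop A hA c x := by gcongr
        _ = trop A hA c x := by rw [← add_mul, hpq, one_mul]
    have hsub : newt A ⊆ {z : Fin n → ℝ | t + ∑ i, (s i + x i) * z i ≤ trop A hA c x} := by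
      refine convexHull_min ?_ hconv
      rintro _ ⟨a, ha, rfl⟩
      simp only [Set.mem_ofPred_eq]
      refine le_trans (le_of_eq ?_) (le_sup' (fun a : Fin n → ℕ => c a + ∑ i, (a i : ℝ) * x i) ha)
      rw [h a ha, add_assoc, ← sum_add_distrib]
      congr 1
      exact sum_congr rfl fun i _ => by ring
    have := hsub hy
    simp only [Set.mem_ofPred_eq, add_mul, sum_add_distrib] at this
    have e1 : ∑ i, (-s) i * y i = - ∑ i, s i * y i := by
      rw [← sum_neg_distrib]
      exact sum_congr rfl fun i _ => by simp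
    have e2 : ∑ i, y i * x i = ∑ i, x i * y i := sum_congr rfl fun i _ => by ring
    rw [e1, e2]
    linarith
  have val : trop A hA c (-s) = t := by
    unfold trop
    have : ∀ a ∈ A, c a + ∑ i, (a i : ℝ) * (-s) i = t := by
      intro a ha
      rw [h a ha, add_assoc, ← sum_add_distrib]
      rw [sum_eq_zero, add_zero]
      intro i _
      simp only [Pi.neg_apply]
      ring
    rw [sup'_congr hA rfl this]
    exact sup'_const hA t
  constructor
  · rintro _ ⟨x, rfl⟩
    exact key x
  · intro b hb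
    refine hb ⟨-s, ?_⟩
    simp only [val]
    have : ∑ i, y i * (-s) i = ∑ i, (-s) i * y i := sum_congr rfl fun i _ => by ring
    rw [this]
    ring

/-- duality: if `c` is not affine on `A`, there is an affine dependency detecting this -/
lemma exists_dependency (A : Finset (Fin n → ℕ)) (c : (Fin n → ℕ) → ℝ)
    (h : ¬ ∃ (s : Fin n → ℝ) (t : ℝ), ∀ a ∈ A, c a = t + ∑ i, s i * (a i : ℝ)) :
    ∃ μ : (Fin n → ℕ) → ℝ, ∑ a ∈ A, μ a = 0 ∧ (∀ i, ∑ a ∈ A, μ a * (a i : ℝ) = 0) ∧
      ∑ a ∈ A, μ a * c a < 0 := by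
  classical
  let v : Option (Fin n) → (A → ℝ) := fun o => match o with
    | none => fun _ => 1
    | some i => fun a => ((a : Fin n → ℕ) i : ℝ)
  have hc : (fun a : A => c a) ∉ Submodule.span ℝ (Set.range v) := by
    intro hmem
    rw [Submodule.mem_span_range_iff_exists_fun] at hmem
    obtain ⟨w, hw⟩ := hmem
    apply h
    refine ⟨fun i => w (some i), w none, fun a ha => ?_⟩
    have := congrFun hw ⟨a, ha⟩
    simp only [Fintype.sum_option, Finset.sum_apply, Pi.smul_apply, smul_eq_mul,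
      v] at this
    rw [← this]
    simp
  obtain ⟨φ, hφ, hφ0⟩ := Submodule.exists_le_ker_of_notMem hc
  let μ : (Fin n → ℕ) → ℝ := fun a =>
    if h : a ∈ A then -(φ fun a : A => c a) * φ (fun j => if (⟨a, h⟩ : A) = j then 1 else 0) else 0
  have key : ∀ g : (Fin n → ℕ) → ℝ,
      ∑ a ∈ A, μ a * g a = -(φ fun a : A => c a) * φ (fun a : A => g a) := by
    intro g
    rw [← sum_coe_sort A (fun a => μ a * g a), LinearMap.pi_apply_eq_sum_univ φ (fun a : A => g a),
      mul_sum]
    refine sum_congr rfl fun a _ => ?_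
    simp only [μ, a.2, dif_pos, smul_eq_mul]
    ring
  have hv : ∀ o, φ (v o) = 0 := fun o =>
    LinearMap.mem_ker.1 (hφ0 (Submodule.subset_span (Set.mem_range_self o)))
  refine ⟨μ, ?_, fun i => ?_, ?_⟩
  · have := key fun _ => 1
    have h1 : φ (fun _ : A => (1 : ℝ)) = 0 := hv none
    simpa [h1] using this
  · rw [key]
    have h1 : φ (fun a : A => ((a : Fin n → ℕ) i : ℝ)) = 0 := hv (some i)
    rw [h1, mul_zero]
  · rw [key]
    have : 0 < (φ fun a : A => c a) * (φ fun a : A => c a) := mul_self_pos.2 hφ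
    linarith

/-- the tropical polynomials lie in the group generated by the units -/
lemma mem_closure (c : (Fin n → ℕ) → ℝ) (S : Finset (Fin n → ℕ)) : ∀ hS : S.Nonempty,
    trop S hS c ∈ AddSubgroup.closure {u : (Fin n → ℝ) → ℝ | IsTropicalUnit u} := by
  classical
  induction S using Finset.strongInduction with
  | H S ih =>
    intro hS
    by_cases haff : ∃ (s : Fin n → ℝ) (t : ℝ), ∀ a ∈ S, c a = t + ∑ i, s i * (a i : ℝ)
    · obtain ⟨s, t, h⟩ := haff
      exact AddSubgroup.subset_closure (unit_of_affine S hS c s t h)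
    obtain ⟨μ, h0, h1, h2⟩ := exists_dependency S c haff
    let ℓ : (Fin n → ℝ) → (Fin n → ℕ) → ℝ := fun x a => c a + ∑ i, (a i : ℝ) * x i
    let Z : Finset (Fin n → ℕ) := S.filter fun a => 0 < μ a
    have hZS : Z ⊆ S := filter_subset _ _
    have hsum : ∀ x, ∑ a ∈ S, μ a * ℓ x a < 0 := by
      intro x
      have : ∑ a ∈ S, μ a * ℓ x a = ∑ a ∈ S, μ a * c a := by
        have e : ∑ a ∈ S, μ a * ∑ i, (a i : ℝ) * x i = 0 := by
          have : ∀ a ∈ S, μ a * ∑ i, (a i : ℝ) * x i = ∑ i, μ a * (a i : ℝ) * x i := by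
            intro a _
            rw [mul_sum]
            exact sum_congr rfl fun i _ => by ring
          rw [sum_congr rfl this, sum_comm]
          refine sum_eq_zero fun i _ => ?_
          rw [← sum_mul, h1 i, zero_mul]
        simp only [ℓ, mul_add, sum_add_distrib]
        rw [e, add_zero]
      rw [this]
      exact h2
    have hZ : Z.Nonempty := by
      by_contra hne
      rw [not_nonempty_iff_eq_empty] at hne
      have hle : ∀ a ∈ S, μ a ≤ 0 := by
        intro a ha
        by_contra hlt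
        have : a ∈ Z := mem_filter.2 ⟨ha, not_le.1 hlt⟩
        rw [hne] at this
        exact notMem_empty a this
      have hz := (sum_eq_zero_iff_of_nonpos hle).1 h0
      have : ∑ a ∈ S, μ a * c a = 0 := sum_eq_zero fun a ha => by rw [hz a ha, zero_mul]
      linarith
    have hjb : ∀ x, ∃ j ∈ Z, ∃ b ∈ S, b ∉ Z ∧ ℓ x j ≤ ℓ x b := by
      intro x
      obtain ⟨j, hj, hmin⟩ := exists_min_image Z (ℓ x) hZ
      refine ⟨j, hj, ?_⟩
      by_contra hcon
      push Not at hcon
      have hnn : 0 ≤ ∑ a ∈ S, μ a * (ℓ x a - ℓ x j) := by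
        refine sum_nonneg fun a ha => ?_
        by_cases haZ : a ∈ Z
        · exact mul_nonneg (mem_filter.1 haZ).2.le (sub_nonneg.2 (hmin a haZ))
        · have hμ : μ a ≤ 0 := by
            by_contra hlt
            exact haZ (mem_filter.2 ⟨ha, not_le.1 hlt⟩)
          exact mul_nonneg_of_nonpos_of_nonpos hμ (sub_nonpos.2 (hcon a ha haZ).le)
      have : ∑ a ∈ S, μ a * (ℓ x a - ℓ x j) = ∑ a ∈ S, μ a * ℓ x a := by
        simp only [mul_sub, sum_sub_distrib]
        rw [← sum_mul, h0, zero_mul, sub_zero]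
      have := hsum x
      linarith
    have hid : ∑ J ∈ Z.powerset, ((-1 : ℤ) ^ J.card) • (fun x => mx (S \ J) (ℓ x)) = 0 := by
      ext x
      obtain ⟨j, hj, b, hb, hbZ, hle⟩ := hjb x
      have := cancel S Z (ℓ x) hZS b hb hbZ j hj hle
      simp only [Finset.sum_apply, Pi.smul_apply, zsmul_eq_mul, Int.cast_pow, Int.cast_neg,
        Int.cast_one, Pi.zero_apply]
      exact this
    have hF : ∀ (T : Finset (Fin n → ℕ)) (hT : T.Nonempty), (fun x => mx T (ℓ x)) = trop T hT c := by
      intro T hT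
      ext x
      rw [mx, dif_pos hT]
      rfl
    rw [← add_sum_erase _ _ (empty_mem_powerset Z)] at hid
    simp only [card_empty, pow_zero, one_smul, sdiff_empty] at hid
    rw [hF S hS] at hid
    rw [eq_neg_of_add_eq_zero_left hid]
    refine AddSubgroup.neg_mem _ (AddSubgroup.sum_mem _ fun J hJ => AddSubgroup.zsmul_mem _ ?_ _)
    obtain ⟨hJne, hJZ⟩ := mem_erase.1 hJ
    rw [mem_powerset] at hJZ
    obtain ⟨-, -, b, hb, hbZ, -⟩ := hjb 0
    have hT : (S \ J).Nonempty := ⟨b, mem_sdiff.2 ⟨hb, fun h => hbZ (hJZ h)⟩⟩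
    rw [hF _ hT]
    refine ih _ ?_ hT
    obtain ⟨a, ha⟩ := nonempty_iff_ne_empty.2 hJne
    exact (ssubset_iff_of_subset sdiff_subset).2 ⟨a, hZS (hJZ ha), fun h => (mem_sdiff.1 h).2 ha⟩

/-- Every tropical polynomial in any number of variables is rationally factorizable. -/
theorem result (n : ℕ) (f : (Fin n → ℝ) → ℝ) (hf : IsTropicalPolynomial f) :
    RationallyFactorizable f := by
  obtain ⟨A, hA, c, rfl⟩ := hf
  have key : ∀ F ∈ AddSubgroup.closure {u : (Fin n → ℝ) → ℝ | IsTropicalUnit u},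
      RationallyFactorizable F := by
    intro F hF
    induction hF using AddSubgroup.closure_induction with
    | mem u hu =>
      exact ⟨0, u, ⟨[], by simp, by simp⟩, ⟨[u], by simpa using hu, by simp⟩, by simp⟩
    | zero => exact ⟨0, 0, ⟨[], by simp, by simp⟩, ⟨[], by simp, by simp⟩, by simp⟩
    | add u v _ _ hu hv =>
      obtain ⟨g, h, ⟨lg, hg, rfl⟩, ⟨lh, hh, rfl⟩, e⟩ := hu
      obtain ⟨g', h', ⟨lg', hg', rfl⟩, ⟨lh', hh', rfl⟩, e'⟩ := hv
      refine ⟨_, _, ⟨lg ++ lg', ?_, rfl⟩, ⟨lh ++ lh', ?_, rfl⟩, ?_⟩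
      · intro w hw
        exact (List.mem_append.1 hw).elim (hg w) (hg' w)
      · intro w hw
        exact (List.mem_append.1 hw).elim (hh w) (hh' w)
      · rw [List.sum_append, List.sum_append, ← e, ← e']
        abel
    | neg u _ hu =>
      obtain ⟨g, h, hg, hh, e⟩ := hu
      exact ⟨h, g, hh, hg, by rw [← e]; abel⟩
  exact key _ (mem_closure c A hA)

end Pool.Agent.Results.MP_b8ee47_co.RationalFactorization
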